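import Pool.Agent.Q170.PO.St2

/-!
Project PX of helper170, job PX-REV: the chart at infinity.
-/

set_option autoImplicit false

namespace Pool.Agent.Q285.PO

open Polynomial Pool.Agent.Q170.PO

theorem mult_unique {P r : ℂ[X]} {ρ : ℂ} {m : ℕ} (h : P = (X - C ρ) ^ m * r)
    (hr : r.eval ρ ≠ 0) : P.rootMultiplicity ρ = m := by
  have hr0 : r ≠ 0 := by
    rintro rfl
    simp at hr
  have h1 : (X - C ρ) ^ m * r ≠ 0 := mul_ne_zero (pow_ne_zero _ (X_sub_C_ne_zero ρ)) hr0
  rw [h, rootMultiplicity_mul h1, rootMultiplicity_X_sub_C_pow, rootMultiplicity_eq_zero hr,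
    add_zero]

theorem reflect_pow_sub (a : ℂ) (m : ℕ) : reflect m ((X - C a) ^ m) = (1 - C a * X) ^ m := by
  induction m with
  | zero => simp
  | succ m ih =>
    have h1 : ((X - C a) ^ m : ℂ[X]).natDegree ≤ m := by
      rw [natDegree_pow, natDegree_X_sub_C, mul_one]
    have h2 : (X - C a : ℂ[X]).natDegree ≤ 1 := by rw [natDegree_X_sub_C]
    rw [pow_succ, reflect_mul _ _ h1 h2, ih, pow_succ, reflect_sub, reflect_one_X, reflect_C,
      pow_one]

theorem eval_reflect {q : ℂ[X]} {N : ℕ} (hq : q.natDegree ≤ N) {x : ℂ} (hx : x ≠ 0) :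
    (reflect N q).eval x⁻¹ * x ^ N = q.eval x := by
  let _ : Invertible x := invertibleOfNonzero hx
  have h := eval₂_reflect_mul_pow (RingHom.id ℂ) x N q hq
  rw [invOf_eq_inv] at h
  exact h

theorem rev : S_REV := by
  intro d g hg hd
  have hdeg : ∀ n, d < n → (reflect d g).coeff n = 0 := by
    intro n hn
    rw [coeff_reflect, revAt_eq_self_of_lt hn]
    exact coeff_eq_zero_of_natDegree_lt (by omega)
  have hinj : Function.Injective (Int.castRingHom ℂ) := Int.cast_injective
  refine ⟨natDegree_le_iff_coeff_eq_zero.2 hdeg, fun h => hg (reflect_eq_zero_iff.1 h), ?_, ?_, ?_⟩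
  · intro K _ u hu
    let _ : Invertible u := invertibleOfNonzero hu
    have h := eval₂_reflect_mul_pow (Int.castRingHom K) u d g hd
    rw [invOf_eq_inv] at h
    exact h
  · intro ρ
    obtain ⟨G, hG⟩ : ∃ G, G = g.map (Int.castRingHom ℂ) := ⟨_, rfl⟩
    have hG0 : G ≠ 0 := by
      rw [hG, Ne, Polynomial.map_eq_zero_iff hinj]
      exact hg
    have hGd : G.natDegree = g.natDegree := by
      rw [hG, natDegree_map_eq_of_injective hinj]
    have e1 : (reflect d g).map (Int.castRingHom ℂ) = reflect d G := by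
      rw [hG, reflect_map]
    rw [e1, ← hG]
    split_ifs with hρ
    · subst hρ
      have e2 : reflect d G = (X - C 0) ^ (d - g.natDegree) * reverse G := by
        have h1 : (1 : ℂ[X]).natDegree ≤ d - g.natDegree := by
          rw [natDegree_one]
          exact Nat.zero_le _
        have h2 := reflect_mul (1 : ℂ[X]) G h1 (le_refl G.natDegree)
        rw [one_mul, reflect_one, hGd, Nat.sub_add_cancel hd] at h2
        rw [h2, C_0, sub_zero, reverse, hGd]
      refine mult_unique e2 ?_
      rw [← coeff_zero_eq_eval_zero, coeff_zero_reverse]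
      exact leadingCoeff_ne_zero.2 hG0
    · obtain ⟨q, hq, hnd⟩ := exists_eq_pow_rootMultiplicity_mul_and_not_dvd G hG0 ρ⁻¹
      obtain ⟨m, hm⟩ : ∃ m, m = rootMultiplicity ρ⁻¹ G := ⟨_, rfl⟩
      rw [← hm] at hq ⊢
      have hq0 : q.eval ρ⁻¹ ≠ 0 := fun h => hnd (dvd_iff_isRoot.2 h)
      have hqne : q ≠ 0 := by
        rintro rfl
        simp at hq0
      have hdegG : G.natDegree = m + q.natDegree := by
        conv_lhs => rw [hq]
        rw [natDegree_mul (pow_ne_zero _ (X_sub_C_ne_zero _)) hqne, natDegree_pow,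
          natDegree_X_sub_C, mul_one]
      have hmd : m ≤ d := by omega
      have hqd : q.natDegree ≤ d - m := by omega
      have h1 : ((X - C ρ⁻¹) ^ m : ℂ[X]).natDegree ≤ m := by
        rw [natDegree_pow, natDegree_X_sub_C, mul_one]
      have e2 := reflect_mul ((X - C ρ⁻¹) ^ m : ℂ[X]) q h1 hqd
      rw [← hq, Nat.add_sub_cancel' hmd, reflect_pow_sub] at e2
      have e3 : (1 - C ρ⁻¹ * X : ℂ[X]) = (X - C ρ) * (- C ρ⁻¹) := by
        have h3 : (C ρ * C ρ⁻¹ : ℂ[X]) = 1 := by
          rw [← C_mul, mul_inv_cancel₀ hρ, C_1]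
        linear_combination -h3
      refine mult_unique (r := (- C ρ⁻¹) ^ m * reflect (d - m) q) ?_ ?_
      · rw [e2, e3, mul_pow, mul_assoc]
      · rw [eval_mul, eval_pow, eval_neg, eval_C]
        refine mul_ne_zero (pow_ne_zero _ (neg_ne_zero.2 (inv_ne_zero hρ))) ?_
        intro h4
        have h5 := eval_reflect hqd (inv_ne_zero hρ)
        rw [inv_inv, h4, zero_mul] at h5
        exact hq0 h5.symm
  · intro a
    have hc : ∀ (b : Fin (d + 1) → ℤ) (n : ℕ) (hn : n < d + 1), (pol b).coeff n = b ⟨n, hn⟩ := by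
      intro b n hn
      unfold pol
      rw [finsetSum_coeff, Finset.sum_eq_single ⟨n, hn⟩]
      · rw [coeff_C_mul, coeff_X_pow, if_pos rfl, mul_one]
      · intro k _ hk
        rw [coeff_C_mul, coeff_X_pow, if_neg, mul_zero]
        intro h
        exact hk (Fin.ext h.symm)
      · intro h
        exact absurd (Finset.mem_univ _) h
    have hc2 : ∀ (b : Fin (d + 1) → ℤ) (n : ℕ), ¬ n < d + 1 → (pol b).coeff n = 0 := by
      intro b n hn
      unfold pol
      rw [finsetSum_coeff]
      refine Finset.sum_eq_zero fun k _ => ?_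
      rw [coeff_C_mul, coeff_X_pow, if_neg, mul_zero]
      intro h
      exact hn (h ▸ k.2)
    ext n
    rw [coeff_reflect]
    by_cases hn : n < d + 1
    · rw [hc _ n hn, revAt_le (by omega), hc _ (d - n) (by omega)]
      congr 1
      apply Fin.ext
      rw [Fin.val_rev]
      change d + 1 - (n + 1) = d - n
      omega
    · rw [hc2 _ n hn, revAt_eq_self_of_lt (by omega), hc2 _ n hn]

end Pool.Agent.Q285.PO
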