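import Pool.Agent.Q170.PO.St2
import Pool.Agent.Q170.PO.Loc1
import Pool.Agent.Q285.PO.Rev

/-!
Project PX of helper170, job PX-FACT: the factors of the denominators.
-/

set_option autoImplicit false

namespace Pool.Agent.Q285.PO

open Polynomial Pool.Agent.Q170.PO UniqueFactorizationMonoid

/-- Bezout over the integers -/
theorem bezout (u v : ℤ[X])
    (h : IsCoprime (u.map (Int.castRingHom ℚ)) (v.map (Int.castRingHom ℚ))) :
    ∃ (A B : ℤ[X]) (c : ℤ), c ≠ 0 ∧ A * u + B * v = C c := by
  obtain ⟨a, b, hab⟩ := h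
  obtain ⟨da, hda, ha⟩ := IsLocalization.integerNormalization_spec (nonZeroDivisors ℤ) a
  obtain ⟨db, hdb, hb⟩ := IsLocalization.integerNormalization_spec (nonZeroDivisors ℤ) b
  have hda0 : da ≠ 0 := nonZeroDivisors.ne_zero hda
  have hdb0 : db ≠ 0 := nonZeroDivisors.ne_zero hdb
  set A0 := IsLocalization.integerNormalization (nonZeroDivisors ℤ) a
  set B0 := IsLocalization.integerNormalization (nonZeroDivisors ℤ) b
  refine ⟨C db * A0, C da * B0, da * db, mul_ne_zero hda0 hdb0, ?_⟩
  have hinj : Function.Injective (Polynomial.map (Int.castRingHom ℚ)) :=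
    Polynomial.map_injective _ Int.cast_injective
  apply hinj
  have ha' : A0.map (Int.castRingHom ℚ) = C (da : ℚ) * a := by
    have h1 : A0.map (Int.castRingHom ℚ) = da • a := ha
    rw [h1, Algebra.smul_def]
    rfl
  have hb' : B0.map (Int.castRingHom ℚ) = C (db : ℚ) * b := by
    have h1 : B0.map (Int.castRingHom ℚ) = db • b := hb
    rw [h1, Algebra.smul_def]
    rfl
  have hC : ∀ z : ℤ, (C z : ℤ[X]).map (Int.castRingHom ℚ) = C (z : ℚ) := fun z => by
    rw [Polynomial.map_C]
    rfl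
  rw [Polynomial.map_add, Polynomial.map_mul, Polynomial.map_mul, Polynomial.map_mul,
    Polynomial.map_mul, hC, hC, hC, ha', hb', Int.cast_mul, C_mul]
  linear_combination (C (da : ℚ) * C (db : ℚ)) * hab

/-- coprime polynomials: no common complex root, coprime modulo large primes -/
theorem cop_data (u v : ℤ[X])
    (h : IsCoprime (u.map (Int.castRingHom ℚ)) (v.map (Int.castRingHom ℚ))) :
    (∀ ρ : ℂ, vl u ρ = 0 → vl v ρ ≠ 0) ∧
    ∃ N : ℕ, ∀ p : ℕ, p.Prime → N < p → IsCoprime (rd p u) (rd p v) := by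
  obtain ⟨A, B, c, hc, hAB⟩ := bezout u v h
  constructor
  · intro ρ h1 h2
    have h3 : vl (A * u + B * v) ρ = (c : ℂ) := by
      rw [hAB]
      unfold vl
      rw [eval₂_C]
      rfl
    rw [vl_add, vl_mul, vl_mul, h1, h2, mul_zero, mul_zero, add_zero] at h3
    exact hc (by exact_mod_cast h3.symm)
  · refine ⟨c.natAbs, fun p hp hlt => ?_⟩
    have : Fact p.Prime := ⟨hp⟩
    have hc0 : ((c : ℤ) : ZMod p) ≠ 0 := by
      intro h0
      rw [ZMod.intCast_zmod_eq_zero_iff_dvd] at h0
      have h5 := Int.natCast_dvd.1 h0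
      have h6 := Nat.le_of_dvd (Int.natAbs_pos.2 hc) h5
      omega
    have h1 := congrArg (rd p) hAB
    unfold rd at h1
    rw [Polynomial.map_add, Polynomial.map_mul, Polynomial.map_mul, Polynomial.map_C] at h1
    change _ = C ((c : ℤ) : ZMod p) at h1
    refine ⟨C ((c : ZMod p))⁻¹ * A.map (Int.castRingHom (ZMod p)),
      C ((c : ZMod p))⁻¹ * B.map (Int.castRingHom (ZMod p)), ?_⟩
    unfold rd
    have h2 : (C ((c : ZMod p))⁻¹ * C (c : ZMod p) : (ZMod p)[X]) = 1 := by
      rw [← C_mul, inv_mul_cancel₀ hc0, C_1]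
    linear_combination C ((c : ZMod p))⁻¹ * h1 + h2

theorem vl_prod {R ι : Type*} [CommRing R] (s : Finset ι) (P : ι → ℤ[X]) (u : R) :
    vl (∏ i ∈ s, P i) u = ∏ i ∈ s, vl (P i) u := by
  unfold vl
  rw [eval₂_finsetProd]

theorem fact : S_FACT := by
  classical
  intro n g hg hmult
  let F : Fin n → Multiset ℤ[X] := fun i => normalizedFactors (g i)
  let S : Finset ℤ[X] := (Finset.univ.biUnion fun i => (F i).toFinset).filter
    (fun P => 0 < P.natDegree)
  have hS : ∀ P ∈ S, Irreducible P ∧ normalize P = P ∧ 0 < P.natDegree := by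
    intro P hP
    obtain ⟨h1, h2⟩ := Finset.mem_filter.1 hP
    obtain ⟨i, -, hi⟩ := Finset.mem_biUnion.1 h1
    have h3 : P ∈ normalizedFactors (g i) := Multiset.mem_toFinset.1 hi
    exact ⟨irreducible_of_normalized_factor P h3, normalize_normalized_factor P h3, h2⟩
  have hprim : ∀ P ∈ S, P.IsPrimitive := fun P hP =>
    (hS P hP).1.isPrimitive (hS P hP).2.2.ne'
  have hirr : ∀ P ∈ S, Irreducible (P.map (Int.castRingHom ℚ)) := fun P hP =>
    (IsPrimitive.Int.irreducible_iff_irreducible_map_cast (hprim P hP)).1 (hS P hP).1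
  have hcop : ∀ P ∈ S, ∀ P' ∈ S, P ≠ P' →
      IsCoprime (P.map (Int.castRingHom ℚ)) (P'.map (Int.castRingHom ℚ)) := by
    intro P hP P' hP' hne
    rcases (hirr P hP).isCoprime_or_dvd (P'.map (Int.castRingHom ℚ)) with h | h
    · exact h
    · exfalso
      have h1 : P ∣ P' :=
        (IsPrimitive.Int.dvd_iff_map_cast_dvd_map_cast P P' (hprim P hP)).2 h
      have h2 : Associated P P' :=
        ((hS P hP).1.dvd_irreducible_iff_associated (hS P' hP').1).1 h1
      exact hne (h2.eq_of_normalized (hS P hP).2.1 (hS P' hP').2.1)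
  have hsep : ∀ P ∈ S, IsCoprime (P.map (Int.castRingHom ℚ))
      ((derivative P).map (Int.castRingHom ℚ)) := by
    intro P hP
    rw [← derivative_map]
    exact (hirr P hP).separable
  -- enumeration
  let e := S.equivFin
  let π : Fin S.card → ℤ[X] := fun t => (e.symm t : ℤ[X])
  have hπ : ∀ t, π t ∈ S := fun t => (e.symm t).2
  have hπinj : Function.Injective π := fun t t' h => e.symm.injective (Subtype.ext h)
  let K : Fin S.card → Fin n → ℕ := fun t i => (F i).count (π t)
  have hprod : ∀ i, ∃ c : ℤ, g i = C c * ∏ t, π t ^ K t i := by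
    intro i
    obtain ⟨w, hw⟩ := prod_normalizedFactors (hg i)
    have h1 : ((F i).filter (fun P => 0 < P.natDegree)).prod *
        ((F i).filter (fun P => ¬ 0 < P.natDegree)).prod = (F i).prod :=
      Multiset.prod_filter_mul_prod_filter_not _
    have h2 : ((F i).filter (fun P => 0 < P.natDegree)).prod = ∏ t, π t ^ K t i := by
      have h3 : ((F i).filter (fun P => 0 < P.natDegree)).toFinset ⊆ S := by
        intro P hP
        rw [Multiset.mem_toFinset, Multiset.mem_filter] at hP
        exact Finset.mem_filter.2 ⟨Finset.mem_biUnion.2 ⟨i, Finset.mem_univ _,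
          Multiset.mem_toFinset.2 hP.1⟩, hP.2⟩
      rw [Finset.prod_multiset_count_of_subset _ S h3, ← Finset.prod_coe_sort S
        (fun P => P ^ ((F i).filter (fun P => 0 < P.natDegree)).count P)]
      refine Fintype.prod_equiv e _ _ fun P => ?_
      have h4 : π (e P) = (P : ℤ[X]) := by
        change ((e.symm (e P) : S) : ℤ[X]) = P
        rw [Equiv.symm_apply_apply]
      change _ = π (e P) ^ (F i).count (π (e P))
      rw [h4, Multiset.count_filter_of_pos (p := fun P : ℤ[X] => 0 < P.natDegree)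
        (hS P P.2).2.2]
    obtain ⟨R, hR⟩ : ∃ R, R = ((F i).filter (fun P => ¬ 0 < P.natDegree)).prod * (w : ℤ[X]) :=
      ⟨_, rfl⟩
    have hR0 : R.natDegree = 0 := by
      have h5 : ((F i).filter (fun P => ¬ 0 < P.natDegree)).prod.natDegree = 0 := by
        have h6 := natDegree_multiset_prod_le ((F i).filter (fun P => ¬ 0 < P.natDegree))
        have h7 : (((F i).filter (fun P => ¬ 0 < P.natDegree)).map natDegree).sum = 0 := by
          rw [Multiset.sum_eq_zero_iff]
          intro a ha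
          obtain ⟨P, hP, rfl⟩ := Multiset.mem_map.1 ha
          have := (Multiset.mem_filter.1 hP).2
          omega
        omega
      have h8 := natDegree_mul_le (p := ((F i).filter (fun P => ¬ 0 < P.natDegree)).prod)
        (q := (w : ℤ[X]))
      rw [← hR, h5, natDegree_eq_zero_of_isUnit w.isUnit] at h8
      omega
    refine ⟨R.coeff 0, ?_⟩
    rw [← eq_C_of_natDegree_eq_zero hR0, ← h2, hR, ← hw]
    have h9 : (normalizedFactors (g i)).prod = (F i).prod := rfl
    rw [h9, ← h1]
    ring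
  choose c hc using hprod
  have hc0 : ∀ i, c i ≠ 0 := by
    intro i h
    apply hg i
    rw [hc i, h, C_0, zero_mul]
  -- complex roots
  have hroot : ∀ t, ∃ ρ : ℂ, vl (π t) ρ = 0 := by
    intro t
    have h1 : ((π t).map (Int.castRingHom ℂ)).degree ≠ 0 := by
      rw [degree_map_eq_of_injective (Int.cast_injective (α := ℂ))]
      exact (natDegree_pos_iff_degree_pos.1 (hS _ (hπ t)).2.2).ne'
    obtain ⟨ρ, hρ⟩ := IsAlgClosed.exists_root _ h1
    refine ⟨ρ, ?_⟩
    rw [vl_eq_eval]
    exact hρ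
  have hmul : ∀ t ρ, vl (π t) ρ = 0 → ∀ i,
      ((g i).map (Int.castRingHom ℂ)).rootMultiplicity ρ = K t i := by
    intro t ρ hρ i
    have h1 : (X - C ρ) ∣ (π t).map (Int.castRingHom ℂ) := by
      rw [dvd_iff_isRoot, IsRoot, ← vl_eq_eval]
      exact hρ
    obtain ⟨q, hq⟩ := h1
    have hq0 : q.eval ρ ≠ 0 := by
      intro h0
      have h2 := (cop_data _ _ (hsep _ (hπ t))).1 ρ hρ
      apply h2
      rw [vl_eq_eval, ← derivative_map, hq, derivative_mul, eval_add, eval_mul, eval_mul, h0,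
        mul_zero, zero_add, eval_sub, eval_X, eval_C, sub_self, zero_mul]
    refine mult_unique (r := q ^ K t i *
      (C ((c i : ℤ) : ℂ) * ∏ t' ∈ Finset.univ.erase t, (π t').map (Int.castRingHom ℂ) ^ K t' i))
      ?_ ?_
    · conv_lhs => rw [hc i]
      rw [Polynomial.map_mul, Polynomial.map_C, Polynomial.map_prod,
        ← Finset.mul_prod_erase Finset.univ _ (Finset.mem_univ t)]
      simp only [Polynomial.map_pow, eq_intCast]
      rw [hq, mul_pow]
      ring
    · rw [eval_mul, eval_mul, eval_pow, eval_C, eval_prod]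
      refine mul_ne_zero (pow_ne_zero _ hq0) (mul_ne_zero ?_ ?_)
      · exact_mod_cast hc0 i
      · refine Finset.prod_ne_zero_iff.2 fun t' ht' => ?_
        rw [eval_pow]
        refine pow_ne_zero _ ?_
        rw [← vl_eq_eval]
        exact (cop_data _ _ (hcop _ (hπ t) _ (hπ t')
          (fun h => (Finset.mem_erase.1 ht').1 (hπinj h).symm))).1 ρ hρ
  have hb1 : ∀ t, ∃ N : ℕ, ∀ p : ℕ, p.Prime → N < p →
      IsCoprime (rd p (π t)) (derivative (rd p (π t))) := by
    intro t
    obtain ⟨N, hN⟩ := (cop_data _ _ (hsep _ (hπ t))).2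
    refine ⟨N, fun p hp hlt => ?_⟩
    have := hN p hp hlt
    rwa [rd_deriv] at this
  have hb2 : ∀ t t', ∃ N : ℕ, t ≠ t' → ∀ p : ℕ, p.Prime → N < p →
      IsCoprime (rd p (π t)) (rd p (π t')) := by
    intro t t'
    by_cases h : t = t'
    · exact ⟨0, fun h' => absurd h h'⟩
    · obtain ⟨N, hN⟩ := (cop_data _ _ (hcop _ (hπ t) _ (hπ t') (fun h' => h (hπinj h')))).2
      exact ⟨N, fun _ => hN⟩
  choose N1 hN1 using hb1
  choose N2 hN2 using hb2
  refine ⟨S.card, π, K, c, hc0, hc, fun t => (hS _ (hπ t)).2.2,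
    fun t t' h => hcop _ (hπ t) _ (hπ t') (fun h' => h (hπinj h')), fun t => ?_,
    ∑ i, (c i).natAbs + ∑ t, N1 t + ∑ t, ∑ t', N2 t t', fun p hp hlt => ⟨fun i hd => ?_,
      fun t => ?_, fun t t' h => ?_⟩⟩
  · obtain ⟨ρ, hρ⟩ := hroot t
    obtain ⟨a, k, hk⟩ := hmult ρ
    refine ⟨a, k, fun i hi => ?_⟩
    rw [← hmul t ρ hρ i]
    exact hk i hi
  · have h1 : (c i).natAbs ≤ ∑ i, (c i).natAbs :=
      Finset.single_le_sum (f := fun i => (c i).natAbs) (fun _ _ => Nat.zero_le _)
        (Finset.mem_univ i)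
    have h5 := Int.natCast_dvd.1 hd
    have h6 := Nat.le_of_dvd (Int.natAbs_pos.2 (hc0 i)) h5
    omega
  · have h1 : N1 t ≤ ∑ t, N1 t :=
      Finset.single_le_sum (f := N1) (fun _ _ => Nat.zero_le _) (Finset.mem_univ t)
    exact hN1 t p hp (by omega)
  · have h1 : N2 t t' ≤ ∑ t', N2 t t' :=
      Finset.single_le_sum (f := N2 t) (fun _ _ => Nat.zero_le _) (Finset.mem_univ t')
    have h2 : ∑ t', N2 t t' ≤ ∑ t, ∑ t', N2 t t' :=
      Finset.single_le_sum (f := fun t => ∑ t', N2 t t') (fun _ _ => Nat.zero_le _)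
        (Finset.mem_univ t)
    exact hN2 t t' h p hp (by omega)

end Pool.Agent.Q285.PO
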