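import Pool.Agent.Q170.PO.St2
import Pool.Agent.Q170.PO.Loc1

/-!
Project PX of helper170, job PX-ROOT: roots of elements congruent to almost unramified units.
-/

set_option autoImplicit false

namespace Pool.Agent.Q285.PO

open Polynomial Pool.Agent.Q170.PO Pool.Agent.Y226

theorem norm_one_of_coprime {C : Type} [NormedField C] [IsUltrametricDist C] {p : ℕ}
    (hp1 : ‖(p : C)‖ < 1) {μ : ℕ} (h : μ.Coprime p) : ‖(μ : C)‖ = 1 := by
  have hle : ‖(μ : C)‖ ≤ 1 := by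
    have := nint (C := C) (μ : ℤ)
    rwa [Int.cast_natCast] at this
  by_contra hne
  have hlt : ‖(μ : C)‖ < 1 := lt_of_le_of_ne hle hne
  have h1 : ((Nat.gcd μ p : ℕ) : ℤ) = μ * Nat.gcdA μ p + p * Nat.gcdB μ p := Nat.gcd_eq_gcd_ab μ p
  rw [Nat.Coprime] at h
  rw [h] at h1
  have h2 : (1 : C) = μ * (Nat.gcdA μ p : C) + p * (Nat.gcdB μ p : C) := by
    exact_mod_cast congrArg (Int.cast : ℤ → C) h1
  have h3 : ‖(μ : C) * (Nat.gcdA μ p : C)‖ < 1 := by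
    rw [norm_mul]
    calc ‖(μ : C)‖ * ‖(Nat.gcdA μ p : C)‖ ≤ ‖(μ : C)‖ * 1 :=
          mul_le_mul_of_nonneg_left (nint _) (norm_nonneg _)
      _ < 1 := by rwa [mul_one]
  have h4 : ‖(p : C) * (Nat.gcdB μ p : C)‖ < 1 := by
    rw [norm_mul]
    calc ‖(p : C)‖ * ‖(Nat.gcdB μ p : C)‖ ≤ ‖(p : C)‖ * 1 :=
          mul_le_mul_of_nonneg_left (nint _) (norm_nonneg _)
      _ < 1 := by rwa [mul_one]
  have h5 := nadd_lt h3 h4
  rw [← h2, norm_one] at h5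
  exact lt_irrefl _ h5

theorem root : S_ROOT := by
  intro K _ _ _ _ _ p hpf hp0 hp1 μ hμ hμp ω ν hν hν1 δ hpδ hδ h
  obtain ⟨τ, f, hf, hτ, hντ⟩ := exists_teich hp1 hν
  have hτδ : ‖ω ^ μ - τ‖ ≤ δ := by
    have e : ω ^ μ - τ = (ω ^ μ - ν) + (ν - τ) := by ring
    rw [e]
    exact nadd_le h (hντ.trans hpδ)
  have hτ1 : ‖τ‖ = 1 := by
    refine neq_one (x := τ) (y := ν) ?_ hν1
    rw [norm_sub_rev]
    exact hντ.trans_lt hp1
  have hωμ : ‖ω ^ μ‖ = 1 := neq_one (hτδ.trans_lt hδ) hτ1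
  have hω : ‖ω‖ = 1 := by
    rw [norm_pow] at hωμ
    exact (pow_eq_one_iff_of_nonneg (norm_nonneg _) hμ.ne').1 hωμ
  have hmon : (X ^ μ - C τ : K[X]).Monic := monic_X_pow_sub_C τ hμ.ne'
  obtain ⟨ζ, hζ, hlt⟩ := near_root hmon (x := ω) (by
    rw [eval_sub, eval_pow, eval_X, eval_C]
    exact hτδ.trans_lt hδ)
  rw [eval_sub, eval_pow, eval_X, eval_C, sub_eq_zero] at hζ
  have hζ1 : ‖ζ‖ = 1 := by
    refine neq_one (x := ζ) (y := ω) ?_ hω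
    rw [norm_sub_rev]
    exact hlt
  have hcop : μ.Coprime p := (Nat.coprime_of_lt_prime hμ.ne' hμp hpf.out).symm
  have hpf1 : 1 < p ^ f := Nat.one_lt_pow hf.ne' hpf.out.one_lt
  have hcop2 : (μ * (p ^ f - 1)).Coprime p := by
    refine Nat.Coprime.mul_left hcop ?_
    refine Nat.Coprime.symm ((Nat.Prime.coprime_iff_not_dvd hpf.out).2 fun hd => ?_)
    have h1 : p ∣ p ^ f := dvd_pow_self p hf.ne'
    have h2 : p ∣ 1 := by
      have h3 : p ^ f = (p ^ f - 1) + 1 := by omega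
      rw [h3] at h1
      exact (Nat.dvd_add_right hd).1 h1
    exact hpf.out.one_lt.ne' (Nat.dvd_one.1 h2)
  have hτ0 : τ ≠ 0 := norm_pos_iff.1 (by rw [hτ1]; exact one_pos)
  have hpow : ζ ^ (μ * (p ^ f - 1)) = 1 := by
    rw [pow_mul, hζ]
    apply mul_left_cancel₀ hτ0
    rw [← pow_succ', Nat.sub_add_cancel hpf1.le, hτ, mul_one]
  obtain ⟨g, hg, hg'⟩ := fixed_of_pow_eq_one hcop2 hpow
  refine ⟨ζ, Nr_of_fixed hg hg', hζ1, ?_⟩
  obtain ⟨S, hS⟩ : ∃ S, S = ∑ i ∈ Finset.range μ, ω ^ i * ζ ^ (μ - 1 - i) := ⟨_, rfl⟩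
  have hgeom : S * (ω - ζ) = ω ^ μ - ζ ^ μ := by
    rw [hS]
    exact (Commute.all ω ζ).geom_sum₂_mul μ
  have hS1 : ‖S‖ = 1 := by
    have h1 : S - μ * ζ ^ (μ - 1) =
        ∑ i ∈ Finset.range μ, (ω ^ i - ζ ^ i) * ζ ^ (μ - 1 - i) := by
      have h2 : (μ : K) * ζ ^ (μ - 1) = ∑ i ∈ Finset.range μ, ζ ^ i * ζ ^ (μ - 1 - i) := by
        rw [Finset.sum_congr rfl fun i hi => (by
          rw [← pow_add]
          congr 1
          have := Finset.mem_range.1 hi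
          omega : ζ ^ i * ζ ^ (μ - 1 - i) = ζ ^ (μ - 1)), Finset.sum_const, Finset.card_range,
          nsmul_eq_mul]
      rw [h2, hS, ← Finset.sum_sub_distrib]
      exact Finset.sum_congr rfl fun i _ => (sub_mul _ _ _).symm
    have h2 : ‖S - μ * ζ ^ (μ - 1)‖ ≤ ‖ω - ζ‖ := by
      rw [h1]
      refine nsum_le _ _ (norm_nonneg _) fun i _ => ?_
      exact nmul_le' (npow_sub_pow hω.le hζ1.le le_rfl _) (npow_le hζ1.le _)
    refine neq_one (h2.trans_lt hlt) ?_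
    rw [norm_mul, norm_pow, hζ1, one_pow, mul_one, norm_one_of_coprime hp1 hcop]
  have h3 : ‖ω - ζ‖ = ‖ω ^ μ - ζ ^ μ‖ := by
    rw [← hgeom, norm_mul, hS1, one_mul]
  rw [h3, hζ]
  exact hτδ

end Pool.Agent.Q285.PO
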